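import Pool.Agent.H56.SPH.End1
import Pool.Agent.H56.END.Fin
import Pool.Agent.H39.EMB.Fin

/-!
# THEOREM DIM, all Julia sets

`ac_conj`: the conclusion is invariant under bi-Lipschitz conjugacies. `pc_sph`: Julia set = sphere. `pc_all`, `dd_g`: all maps of the
families `R(d, m)` which are not limits of maps with more attracted critical points; the planar theorem `ROBg` is a hypothesis.
-/

set_option autoImplicit false

open Filter Topology Polynomial Metric Set MeasureTheory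

namespace Pool.Agent.H56.SPH

open Pool.Agent.H44.Fatou (rat rat_continuous rat_coe rat_coe_of_ne pt crit_coe)
open Pool.Agent.H56.HR (FS EqAt)
open Pool.Agent.H32.BT Pool.Agent.H79.Eul Pool.Agent.H79.Par
open Pool.Agent.H35.EX Pool.Agent.H44.RR Pool.Agent.H44.RC Pool.Agent.H47.RJ
open Pool.Agent.H47.NM Pool.Agent.H47.NN Pool.Agent.H44.ND Pool.Agent.H79.ES Pool.Agent.H44.RG
open Pool.Agent.H44.CP Pool.Agent.H47.PS Pool.Agent.H64.NC Pool.Agent.H57.CF
open Pool.Agent.H64.JS (KJ kj_inv it_mem)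
open Pool.Agent.H64.TP (KK)
open Pool.Agent.H83.BE (UPd)
open Pool.Agent.H21.AS (CluS ACs not_ac)
open Pool.Agent.H78.UX (kj_img)
open Pool.Agent.H56.END (MnS EMBz DD dd_of_td pc_fam emb_dec)

variable {d : ℕ}

theorem ac_conj {φ : OnePoint ℂ ≃ₜ OnePoint ℂ} {f g : OnePoint ℂ → OnePoint ℂ} (conj : ∀ x, g (φ x) = φ (f x)) {K : ℝ}
    (hK : 0 < K) (bil : ∀ x y, chord (φ x) (φ y) ≤ K * chord x y ∧ chord x y ≤ K * chord (φ x) (φ y))
    (h : ∃ M, MnS g (KK g) M ∧ (∃ c ∈ M, IsCrit g c) ∧ ACs M) :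
    ∃ M, MnS f (KK f) M ∧ (∃ c ∈ M, IsCrit f c) ∧ ACs M := by
  obtain ⟨M, hM, ⟨c, hcM, hc⟩, hAC⟩ := h
  have hkk : ∀ x, φ x ∈ KK g ↔ x ∈ KK f := fun x => kj_img conj x
  have hinj : ∀ A : Set (OnePoint ℂ), φ ⁻¹' (φ '' A) = A := fun A => φ.injective.preimage_image A
  refine ⟨φ ⁻¹' M, ⟨hM.cl.preimage φ.continuous, ?_, ?_, ?_, ?_, ?_, ?_⟩, ⟨φ.symm c, ?_, ?_⟩, ?_⟩
  · obtain ⟨y, hy⟩ := hM.ne
    exact ⟨φ.symm y, by show φ (φ.symm y) ∈ M; rw [φ.apply_symm_apply]; exact hy⟩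
  · intro x hx
    exact (hkk x).1 (hM.sub hx)
  · intro x hx
    show φ (f x) ∈ M
    rw [← conj]
    exact hM.inv _ hx
  · intro L hL hLc hLn hLf
    have h1 := hM.min (φ '' L) (by
      rintro _ ⟨x, hx, rfl⟩
      exact hL hx) (φ.isClosedMap _ hLc) (hLn.image φ) (by
      rintro _ ⟨x, hx, rfl⟩
      rw [conj]
      exact mem_image_of_mem φ (hLf x hx))
    rw [← h1, hinj]
  · have h1 : KK f \ (φ ⁻¹' M) = φ ⁻¹' (KK g \ M) := by
      ext x
      exact and_congr (hkk x).symm Iff.rfl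
    rw [h1]
    exact hM.off.preimage φ.continuous
  · intro x hx hxM hfx
    refine hM.com (φ x) ((hkk x).2 hx) hxM ?_
    rw [conj]
    exact hfx
  · show φ (φ.symm c) ∈ M
    rw [φ.apply_symm_apply]
    exact hcM
  · rw [← isCrit_conj φ conj, φ.apply_symm_apply]
    exact hc
  · intro ε hε
    obtain ⟨r0, hr0, h1⟩ := hAC (ε / K ^ 2) (by positivity)
    refine ⟨r0 / K, by positivity, fun r hr hrr A hA => ?_⟩
    obtain ⟨hAn, hAM, hAd, hAs⟩ := hA
    refine h1 (K * r) (by positivity) (by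
      rw [lt_div_iff₀ hK] at hrr
      linarith) (φ '' A) ⟨hAn.image φ, ?_, ?_, ?_⟩
    · rintro _ ⟨x, hx, rfl⟩
      exact hAM hx
    · rintro _ ⟨x, hx, rfl⟩ _ ⟨y, hy, rfl⟩
      exact (bil x y).1.trans (mul_le_mul_of_nonneg_left (hAd x hx y hy) hK.le)
    · rintro _ ⟨x, hx, rfl⟩ y hy hyA
      have h2 : y = φ (φ.symm y) := (φ.apply_symm_apply y).symm
      have h3 : φ.symm y ∉ A := fun h4 => hyA ⟨φ.symm y, h4, φ.apply_symm_apply y⟩
      have h4 := hAs x hx (φ.symm y) (by show φ (φ.symm y) ∈ M; rw [φ.apply_symm_apply]; exact hy) h3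
      have h5 := (bil x (φ.symm y)).2
      rw [φ.apply_symm_apply] at h5
      have h6 : ε / K ^ 2 * (K * r) = ε * r / K := by
        field_simp
      rw [h6, div_le_iff₀ hK]
      linarith

theorem upf_zero {x : Em d 0} (h : UpF d 0 x) : Up (ex d 0 x) := by
  intro ε hε
  obtain ⟨w, hw, h1, h2, h3⟩ := h ε hε
  refine ⟨w, ?_, h1, h2, ?_⟩
  · have h4 : ex d 0 x = x := ex_zero x
    rw [h4]
    exact hw
  · have h4 : ex d 0 w = w := ex_zero w
    rw [h4] at h3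
    exact h3

/-- Julia set = sphere -/
theorem pc_sph (hR : ROBg) {v : E d} (hd : 2 ≤ d) (hcop : IsCoprime (pol v.1) (pol v.2))
    (hdeg : max (pol v.1).natDegree (pol v.2).natDegree = d) (hup : ¬ Up v) (hJ : JS (Rf v) = univ)
    (htd : IsTotallyDisconnected (KK (Rf v))) :
    ∃ M, MnS (Rf v) (KK (Rf v)) M ∧ (∃ c ∈ M, IsCrit (Rf v) c) ∧ ACs M := by
  obtain ⟨q1, q2, q3, n12, n13, n23, e1, e2, e3⟩ := three_fix hd hcop hdeg hup hJ
  obtain ⟨L, G, φ, K, hch, -, f0, f1, fi⟩ := ch_three (d := d) hd n12 n13 n23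
  obtain ⟨hcop1, hdeg1, hφ⟩ := hch.conj v hcop hdeg
  have hup1 : ¬ Up (L v) := fun h =>
    hup (up_chart hd hch.cG hch.invL hch.invR (fun v h3 h4 => (hch.conj v h3 h4).2.2) hcop hdeg h)
  have hJS1 : JS (Rf (L v)) = univ := by
    rw [eq_univ_iff_forall]
    intro y
    obtain ⟨x, rfl⟩ := φ.surjective y
    exact (js_conj φ (fun y => (hφ y).symm) x).2 (hJ ▸ mem_univ x)
  have h0 : Rf (L v) ((0 : ℂ) : OnePoint ℂ) = ((0 : ℂ) : OnePoint ℂ) := by rw [← f0, hφ, e1]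
  have h1 : Rf (L v) ((1 : ℂ) : OnePoint ℂ) = ((1 : ℂ) : OnePoint ℂ) := by rw [← f1, hφ, e2]
  have hi : Rf (L v) OnePoint.infty = OnePoint.infty := by rw [← fi, hφ, e3]
  have htd1 : IsTotallyDisconnected (KK (Rf (L v))) := by
    intro A hA hAp
    have h2 : (φ.symm '' A).Subsingleton := htd (φ.symm '' A) (by
      rintro _ ⟨y, hy, rfl⟩
      have h3 := hA hy
      rw [← φ.apply_symm_apply y] at h3
      exact (kj_img hφ (φ.symm y)).1 h3) (hAp.image _ φ.symm.continuous.continuousOn)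
    intro a ha b hb
    exact φ.symm.injective (h2 (mem_image_of_mem _ ha) (mem_image_of_mem _ hb))
  obtain ⟨x, hx⟩ : ∃ x : Em d 0, ex d 0 x = L v := ⟨L v, ex_zero (L v)⟩
  have hcop2 : IsCoprime (pol x.1) (pol x.2) := by
    have h2 : ex d 0 x = x := ex_zero x
    rw [← hx, h2] at hcop1
    exact hcop1
  have hdeg2 : max (pol x.1).natDegree (pol x.2).natDegree = d := by
    have h2 : ex d 0 x = x := ex_zero x
    rw [← hx, h2] at hdeg1
    exact hdeg1
  have hupf : ¬ UpF d 0 x := fun h => hup1 (hx ▸ upf_zero h)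
  obtain ⟨κ, k0, -, -, hb⟩ := Pool.Agent.H64.BE.beau (d := d) hd
  have hU := hb 0 (Nat.zero_le d) x hcop2 hdeg2 hupf
  rw [← hx] at htd1
  have hD := Pool.Agent.H39.EMB.dec_full hd (Nat.zero_le d) hcop2 hdeg2 hupf htd1
  have hnp : ∀ y ∈ KK (Rf (ex d 0 x)), Rf (ex d 0 x) y ≠ y := fun y hy =>
    Pool.Agent.H39.EMB.kk_nper hd (Nat.zero_le d) hcop2 hdeg2 hupf htd1 hy le_rfl
  rw [hx] at hD hnp htd1 hU
  have hfin : {c | IsCrit (Rf (L v)) c}.Finite := crit_finite hcop1 (by rw [hdeg1]; omega)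
  exact ac_conj hφ (one_pos.trans_le hch.K1) hch.bil
    (end_one hR hd hcop1 hdeg1 hup1 hJS1 h0 h1 hi htd1 hnp (emb_dec hfin hD) hD.own ⟨κ, k0, hU⟩)

/-- all Julia sets, all families -/
theorem pc_all (hR : ROBg) {m : ℕ} (hd : 2 ≤ d) (hm : m ≤ d) {x : Em d m} (hcop : IsCoprime (pol x.1) (pol x.2))
    (hdeg : max (pol x.1).natDegree (pol x.2).natDegree = d) (hup : ¬ UpF d m x) {c : OnePoint ℂ}
    (hc : IsCrit (Rf (ex d m x)) c) (hcJ : c ∈ JS (Rf (ex d m x))) (htd : IsTotallyDisconnected (KK (Rf (ex d m x)))) :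
    ∃ M, MnS (Rf (ex d m x)) (KK (Rf (ex d m x))) M ∧ (∃ c ∈ M, IsCrit (Rf (ex d m x)) c) ∧ ACs M := by
  by_cases hJ : JS (Rf (ex d m x)) = univ
  · rcases Nat.lt_or_ge m 2 with h2 | h2
    · have hup1 : ¬ Up (ex d m x) := by
        rcases Nat.lt_or_ge m 1 with h1 | h1
        · obtain rfl : m = 0 := by omega
          exact fun h => hup (up_zero h)
        · obtain rfl : m = 1 := by omega
          exact fun h => hup (Pool.Agent.H64.PF.up_one hd hcop hdeg h)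
      exact pc_sph hR hd (ex_cop hcop) (ex_deg hdeg) hup1 hJ htd
    · exfalso
      obtain ⟨D, u, φ, K, T, h, -⟩ := Pool.Agent.H31.UDC.cdx_upF hd h2 hm hcop hdeg hup
      obtain ⟨y, hy⟩ := φ.surjective OnePoint.infty
      have h3 : φ y ∈ JS (Rf u) := (js_conj φ (fun y => (h.conj y).symm) y).2 (hJ ▸ mem_univ y)
      rw [hy] at h3
      exact h3 h.ga.fi
  · have hF : (FS (Rf (ex d m x))).Nonempty := by
      by_contra h1
      refine hJ ?_
      show (FS (Rf (ex d m x)))ᶜ = univ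
      rw [Set.not_nonempty_iff_eq_empty.1 h1, Set.compl_empty]
    exact pc_fam (robm_g hR) hd hm hcop hdeg hup hF hc hcJ htd

/-- THEOREM DIM for one map, all Julia sets -/
theorem dd_g (hR : ROBg) {m : ℕ} (hd : 2 ≤ d) (hm : m ≤ d) {x : Em d m} (hcop : IsCoprime (pol x.1) (pol x.2))
    (hdeg : max (pol x.1).natDegree (pol x.2).natDegree = d) (hup : ¬ UpF d m x) :
    (∀ c, IsCrit (Rf (ex d m x)) c → c ∉ JS (Rf (ex d m x))) ∨ DD (Rf (ex d m x)) (KK (Rf (ex d m x))) := by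
  by_cases h : ∀ c, IsCrit (Rf (ex d m x)) c → c ∉ JS (Rf (ex d m x))
  · exact Or.inl h
  · push Not at h
    obtain ⟨c, hc, hcJ⟩ := h
    exact Or.inr (dd_of_td fun htd => pc_all hR hd hm hcop hdeg hup hc hcJ htd)

end Pool.Agent.H56.SPH
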