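import Pool.Agent.H56.SPH.Fin
import Pool.Agent.H64.SPG.Rob

/-!
# THEOREM DIM, all Julia sets: unconditional form

`robg`: the planar theorem (H64/SPG, H66/SP, H47/LG). `dd_all`: THEOREM DIM for one map, all Julia sets.
-/

set_option autoImplicit false

open Filter Topology Polynomial Metric Set MeasureTheory

namespace Pool.Agent.H56.SPH

open Pool.Agent.H32.BT Pool.Agent.H79.Eul Pool.Agent.H79.Par Pool.Agent.H44.RC
open Pool.Agent.H57.CF Pool.Agent.H47.NM
open Pool.Agent.H64.TP (KK)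
open Pool.Agent.H56.END (DD)

variable {d : ℕ}

theorem robg : ROBg := Pool.Agent.H64.SPG.robg

/-- THEOREM DIM for one map -/
theorem dd_all {m : ℕ} (hd : 2 ≤ d) (hm : m ≤ d) {x : Em d m} (hcop : IsCoprime (pol x.1) (pol x.2))
    (hdeg : max (pol x.1).natDegree (pol x.2).natDegree = d) (hup : ¬ UpF d m x) :
    (∀ c, IsCrit (Rf (ex d m x)) c → c ∉ JS (Rf (ex d m x))) ∨ DD (Rf (ex d m x)) (KK (Rf (ex d m x))) :=
  dd_g robg hd hm hcop hdeg hup

end Pool.Agent.H56.SPH
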