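import Pool.Agent.H56.SPH.Ty
import Pool.Agent.H66.UX.SXE

/-!
# Julia set = sphere, END: a compact set of typical points, uniformly attracted by the post-critical set

`eg_s`: in `E` there is a compact set of positive measure on which `f^k` tends to `P` uniformly, whose points are never mapped to a
pole or to a critical point. `js_s`: the compact set `P ∪ ⋃ f^k(E')`.
-/

set_option autoImplicit false

open Filter Topology Polynomial Metric Set MeasureTheory

namespace Pool.Agent.H56.SPH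

open Pool.Agent.H61.TT (gg dg ww RatD)
open Pool.Agent.H78.UX (oU SS)
open Pool.Agent.H66.IL (SFX)
open Pool.Agent.H66.UX (UP CrS)

private theorem sxe_mem {a b : Polynomial ℂ} (m : ℕ) {S : Set ℂ} {z : ℂ}
    (h1 : ∀ i < m, b.eval ((gg a b)^[i] z) ≠ 0) (h2 : (gg a b)^[m] z ∈ S) :
    z ∈ (Pool.Agent.H61.TT.pre a b)^[m] S := by
  induction m generalizing z with
  | zero => exact h2
  | succ m ih =>
    rw [Function.iterate_succ_apply']
    refine ⟨h1 0 (by omega), ih (fun i hi => ?_) h2⟩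
    exact h1 (i + 1) (by omega)

private theorem sxe_null {a b : Polynomial ℂ} {D : ℕ} (hrt : RatD D a b) {S : Set ℂ}
    (hS : volume S = 0) (k : ℕ) : volume ((Pool.Agent.H61.TT.pre a b)^[k] S) = 0 := by
  induction k with
  | zero => exact hS
  | succ k ih =>
    rw [Function.iterate_succ_apply']
    exact Pool.Agent.H61.TT.null_pre hrt ih

private theorem sxe_pole {a b : Polynomial ℂ} {D : ℕ} (hrt : RatD D a b) : volume (UP b)ᶜ = 0 := by
  have hb : b ≠ 0 := Pool.Agent.H61.TT.b_ne hrt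
  have h1 : (UP b)ᶜ ⊆ (b.roots.toFinset : Set ℂ) := by
    intro z hz
    have h2 : b.eval z = 0 := not_not.1 hz
    rw [Finset.mem_coe, Multiset.mem_toFinset, mem_roots hb]
    exact h2
  exact ((Finset.finite_toSet _).subset h1).measure_zero _

theorem gg_meas (a b : Polynomial ℂ) : Measurable (gg a b) := by
  unfold gg
  exact a.continuous.measurable.div b.continuous.measurable

theorem eg_s {a b : Polynomial ℂ} {D : ℕ} (hrt : RatD D a b) {P E : Set ℂ} {δ ρ : ℝ} {η : ℂ → ℂ → ℂ}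
    (h : SS (gg a b) (UP b) P (CrS a b) δ η ρ) {n : ℕ} {X hh μ : Fin n → ℂ → ℂ} {i0 : Fin n} {b0 : ℝ}
    (hX : SFX (gg a b) (UP b) E n X hh μ i0 b0) : ∃ E' ⊆ E, IsCompact E' ∧ 0 < volume E' ∧
      (∀ z ∈ E', ∀ k : ℕ, (gg a b)^[k] z ∈ UP b) ∧ (∀ z ∈ E', ∀ k : ℕ, (gg a b)^[k] z ∉ CrS a b) ∧
      ∀ ε : ℝ, 0 < ε → ∃ N : ℕ, ∀ k ≥ N, ∀ z ∈ E', ∃ p ∈ P, ‖(gg a b)^[k] z - p‖ < ε := by
  set S : Set ℂ := (UP b)ᶜ ∪ CrS a b with hS
  have hS0 : volume S = 0 := measure_union_null (sxe_pole hrt) (h.Cf.measure_zero _)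
  set N : Set ℂ := ⋃ k : ℕ, (Pool.Agent.H61.TT.pre a b)^[k] S with hN
  have hN0 : volume N = 0 := measure_iUnion_null fun k => sxe_null hrt hS0 k
  have hor : ∀ z, z ∉ N → ∀ k : ℕ, (gg a b)^[k] z ∈ UP b ∧ (gg a b)^[k] z ∉ CrS a b := by
    intro z hz k
    induction k using Nat.strong_induction_on with
    | _ k ih =>
      have h1 : (gg a b)^[k] z ∉ S := by
        intro h2
        refine hz (mem_iUnion.2 ⟨k, sxe_mem k (fun i hi => (ih i hi).1) h2⟩)
      rw [hS, mem_union, not_or] at h1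
      exact ⟨not_not.1 h1.1, h1.2⟩
  have hE0 : 0 < volume (E \ toMeasurable volume N) := by
    rw [measure_sdiff_null (by rw [measure_toMeasurable, hN0])]
    exact hX.Ep
  have hEm : MeasurableSet (E \ toMeasurable volume N) :=
    hX.Ec.isClosed.measurableSet.diff (measurableSet_toMeasurable _ _)
  obtain ⟨K, hK, hKc, hKp⟩ := hEm.exists_lt_isCompact hE0
  have hKN : ∀ z ∈ K, z ∉ N := fun z hz h1 => (hK hz).2 (subset_toMeasurable _ _ h1)
  have hfin : volume K ≠ ⊤ := hKc.measure_lt_top.ne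
  obtain ⟨t, htK, htm, htv, htu⟩ := tendstoUniformlyOn_of_ae_tendsto (μ := volume) (s := K)
    (f := fun (k : ℕ) z => infDist ((gg a b)^[k] z) P) (g := fun _ => (0 : ℝ))
    (fun k => (((gg_meas a b).iterate k).infDist).stronglyMeasurable) stronglyMeasurable_const hKc.isClosed.measurableSet
    hfin (Eventually.of_forall fun z hz => by
      rw [Metric.tendsto_atTop]
      intro ε hε
      have h1 := tend_s h hX (hK hz).1 (fun k => (hor z (hKN z hz) k).1) hε
      obtain ⟨M, hM⟩ := eventually_atTop.1 h1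
      refine ⟨M, fun k hk => ?_⟩
      obtain ⟨p, hp, hlt⟩ := hM k hk
      rw [Real.dist_0_eq_abs, abs_of_nonneg infDist_nonneg]
      exact (infDist_le_dist_of_mem hp).trans_lt (by rwa [dist_eq_norm])) (ε := (volume K).toReal / 2)
    (by
      have := ENNReal.toReal_pos hKp.ne' hfin
      linarith)
  have hpos : 0 < volume (K \ t) := by
    have h2 : volume t < volume K := by
      refine htv.trans_lt ?_
      have h3 : volume K = ENNReal.ofReal (volume K).toReal := (ENNReal.ofReal_toReal hfin).symm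
      have h4 := ENNReal.toReal_pos hKp.ne' hfin
      rw [h3, ENNReal.toReal_ofReal h4.le]
      exact (ENNReal.ofReal_lt_ofReal_iff h4).2 (by linarith)
    have h5 := measure_sdiff htK htm.nullMeasurableSet (h2.trans_le le_top).ne (μ := volume)
    rw [h5]
    exact tsub_pos_of_lt h2
  obtain ⟨E', hE', hEc, hEp⟩ := (hKc.isClosed.measurableSet.diff htm).exists_lt_isCompact hpos
  refine ⟨E', fun z hz => (hK (hE' hz).1).1, hEc, hEp, fun z hz k => (hor z (hKN z (hE' hz).1) k).1,
    fun z hz k => (hor z (hKN z (hE' hz).1) k).2, fun ε hε => ?_⟩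
  have h1 := (Metric.tendstoUniformlyOn_iff.1 htu) ε hε
  obtain ⟨M, hM⟩ := eventually_atTop.1 h1
  refine ⟨M, fun k hk z hz => ?_⟩
  have h2 := hM k hk z (hE' hz)
  rw [dist_comm, Real.dist_0_eq_abs, abs_of_nonneg infDist_nonneg] at h2
  obtain ⟨p, hp, h3⟩ := (infDist_lt_iff h.Pn).1 h2
  exact ⟨p, hp, by rwa [← dist_eq_norm]⟩

/-- the points whose orbits stay near `P`, and the images of a compact set which tend to `P` uniformly -/
theorem js_s {f : ℂ → ℂ} {U P E' : Set ℂ} (hU : IsOpen U) (hf : ContinuousOn f U) (hPc : IsCompact P) (hPn : P.Nonempty)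
    (hPU : P ⊆ U) (hPf : ∀ z ∈ P, f z ∈ P)
    (hE : IsCompact E') (hEU : ∀ z ∈ E', ∀ k : ℕ, f^[k] z ∈ U)
    (hu : ∀ ε : ℝ, 0 < ε → ∃ N : ℕ, ∀ k ≥ N, ∀ z ∈ E', ∃ p ∈ P, ‖f^[k] z - p‖ < ε) :
    ∃ (J : Set ℂ) (d2 : ℝ), 0 < d2 ∧ IsCompact J ∧ P ⊆ J ∧ E' ⊆ J ∧ J ⊆ U ∧ (∀ z ∈ J, f z ∈ J) ∧
      ∀ z : ℂ, (∀ i : ℕ, infDist (f^[i] z) P < d2) → z ∈ J := by
  obtain ⟨d, hd, hdU⟩ := hPc.exists_cthickening_subset_open hU hPU
  obtain ⟨Q, hQ⟩ : ∃ Q : Set ℂ, Q = {z | ∀ i : ℕ, f^[i] z ∈ cthickening d P} := ⟨_, rfl⟩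
  have hQi : ∀ z ∈ Q, ∀ i : ℕ, f^[i] z ∈ cthickening d P := by
    intro z hz
    rw [hQ] at hz
    exact hz
  have hQf : ∀ z ∈ Q, f z ∈ Q := by
    intro z hz
    rw [hQ]
    intro i
    rw [← Function.iterate_succ_apply]
    exact hQi z hz (i + 1)
  have hTc : IsCompact (cthickening d P) := hPc.cthickening
  -- the closed sets of the points which stay `n` times
  have hcl : ∀ n : ℕ, IsClosed {z | ∀ i ≤ n, f^[i] z ∈ cthickening d P} ∧
      ContinuousOn f^[n + 1] {z | ∀ i ≤ n, f^[i] z ∈ cthickening d P} := by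
    intro n
    induction n with
    | zero =>
      have h1 : {z | ∀ i ≤ 0, f^[i] z ∈ cthickening d P} = cthickening d P := by
        ext z
        constructor
        · intro h
          exact h 0 le_rfl
        · intro h i hi
          obtain rfl : i = 0 := by omega
          exact h
      rw [h1]
      exact ⟨isClosed_cthickening, hf.mono hdU⟩
    | succ n ih =>
      have h1 : {z | ∀ i ≤ n + 1, f^[i] z ∈ cthickening d P} =
          {z | ∀ i ≤ n, f^[i] z ∈ cthickening d P} ∩ f^[n + 1] ⁻¹' (cthickening d P) := by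
        ext z
        constructor
        · intro h
          exact ⟨fun i hi => h i (by omega), h (n + 1) le_rfl⟩
        · rintro ⟨h2, h3⟩ i hi
          rcases Nat.lt_or_ge n i with h4 | h4
          · obtain rfl : i = n + 1 := by omega
            exact h3
          · exact h2 i h4
      rw [h1]
      refine ⟨ih.2.preimage_isClosed_of_isClosed ih.1 isClosed_cthickening, ?_⟩
      rw [Function.iterate_succ']
      exact (hf.mono hdU).comp (ih.2.mono inter_subset_left) fun z hz => hz.2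
  have hQc : IsCompact Q := by
    refine hTc.of_isClosed_subset ?_ fun z hz => hQi z hz 0
    have h1 : Q = ⋂ n : ℕ, {z | ∀ i ≤ n, f^[i] z ∈ cthickening d P} := by
      rw [hQ]
      ext z
      simp only [mem_iInter]
      constructor
      · intro h n i _
        exact h i
      · intro h i
        exact h i i le_rfl
    rw [h1]
    exact isClosed_iInter fun n => (hcl n).1
  obtain ⟨N, hN⟩ := hu d hd
  have hcont : ∀ k : ℕ, ContinuousOn f^[k] E' := by
    intro k
    induction k with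
    | zero => exact continuousOn_id
    | succ k ih =>
      rw [Function.iterate_succ']
      exact hf.comp ih fun z hz => hEU z hz k
  have hk : ∀ k : ℕ, IsCompact (f^[k] '' E') := fun k => hE.image_of_continuousOn (hcont k)
  have hit : ∀ z ∈ P, ∀ k : ℕ, f^[k] z ∈ P := by
    intro z hz k
    induction k with
    | zero => exact hz
    | succ k ih =>
      rw [Function.iterate_succ_apply']
      exact hPf _ ih
  have hPQ : P ⊆ Q := by
    intro z hz
    rw [hQ]
    intro i
    exact self_subset_cthickening P (hit z hz i)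
  obtain ⟨J, hJ⟩ : ∃ J : Set ℂ, J = Q ∪ ⋃ k ∈ Finset.range (N + 1), f^[k] '' E' := ⟨_, rfl⟩
  have hJ1 : ∀ z ∈ Q, z ∈ J := fun z hz => hJ ▸ Or.inl hz
  have hJ2 : ∀ z ∈ E', ∀ k : ℕ, f^[k] z ∈ J := by
    intro z hz k
    rcases Nat.lt_or_ge k N with h1 | h1
    · rw [hJ]
      exact Or.inr (mem_iUnion₂.2 ⟨k, Finset.mem_range.2 (by omega), z, hz, rfl⟩)
    · refine hJ1 _ ?_
      rw [hQ]
      intro i
      rw [← Function.iterate_add_apply]
      obtain ⟨p, hp, hlt⟩ := hN (i + k) (by omega) z hz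
      refine thickening_subset_cthickening _ _ (mem_thickening_iff.2 ⟨p, hp, ?_⟩)
      rwa [dist_eq_norm]
  refine ⟨J, d, hd, ?_, fun z hz => hJ1 z (hPQ hz), fun z hz => hJ2 z hz 0, ?_, ?_, ?_⟩
  · rw [hJ]
    exact hQc.union ((Finset.range (N + 1)).isCompact_biUnion fun k _ => hk k)
  · intro z hz
    rw [hJ] at hz
    rcases hz with hz | hz
    · exact hdU (hQi z hz 0)
    · obtain ⟨m, -, x, hx, rfl⟩ := mem_iUnion₂.1 hz
      exact hEU x hx m
  · intro z hz
    rw [hJ] at hz
    rcases hz with hz | hz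
    · exact hJ1 _ (hQf z hz)
    · obtain ⟨m, -, x, hx, rfl⟩ := mem_iUnion₂.1 hz
      rw [← Function.iterate_succ_apply' f m x]
      exact hJ2 x hx (m + 1)
  · intro z hz
    refine hJ1 z ?_
    rw [hQ]
    intro i
    obtain ⟨p, hp, hlt⟩ := (infDist_lt_iff hPn).1 (hz i)
    exact thickening_subset_cthickening _ _ (mem_thickening_iff.2 ⟨p, hp, hlt⟩)

end Pool.Agent.H56.SPH
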