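import Pool.Agent.H56.SPH.End1
import Pool.Agent.H56.END.LocD

/-!
# Julia set = sphere, END, local form: one normalised map

`SFXl`: THEOREM LOC, Julia set = sphere: fields with `E` in the basin of a given minimal piece. `end_onel`: every minimal piece with a
critical point is asymptotically connected.
-/

set_option autoImplicit false

open Filter Topology Polynomial Metric Set MeasureTheory

namespace Pool.Agent.H56.SPH

open Pool.Agent.H44.Fatou (rat rat_continuous rat_coe rat_coe_of_ne pt crit_coe)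
open Pool.Agent.H56.HR (FS EqAt)
open Pool.Agent.H32.BT Pool.Agent.H79.Eul Pool.Agent.H79.Par
open Pool.Agent.H35.EX Pool.Agent.H44.RR Pool.Agent.H44.RC Pool.Agent.H47.RJ
open Pool.Agent.H47.NN Pool.Agent.H44.ND Pool.Agent.H79.ES Pool.Agent.H44.TH
open Pool.Agent.H64.NC Pool.Agent.H61.TT Pool.Agent.H57.CP Pool.Agent.H3.NC
open Pool.Agent.H64.JS (KJ kj_inv kj_sub)
open Pool.Agent.H64.TP (KK)
open Pool.Agent.H83.BE (UPd)
open Pool.Agent.H21.AS (CluS ACs not_ac)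
open Pool.Agent.H66.DIM (Mn Tz Rg Clu)
open Pool.Agent.H66.UX (PCs Pq rz_ex r1 UP CrS)
open Pool.Agent.H78.UX (em_hom)
open Pool.Agent.H66.SP (PG FG)
open Pool.Agent.H66.IL (SFX)
open Pool.Agent.H56.END (MnS EMBz mns_dense ch_up ch_lo)

variable {d : ℕ}

/-- the fields of THEOREM LOC, Julia set = sphere: for every minimal piece with a critical point there are fields with `E` in its basin -/
def SFXl (v : E d) : Prop := ∀ S : Set (OnePoint ℂ), MnS (Rf v) (KK (Rf v)) S → (∃ c ∈ S, IsCrit (Rf v) c) →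
  ∀ (q : ℂ) (N : ℕ) (g : ℂ → ℂ) (U : Set ℂ), IsOpen U → DifferentiableOn ℂ g U →
    (∀ w ∈ U, (Rf v)^[N] (Pool.Agent.H66.IL.em q w) = Pool.Agent.H66.IL.em q (g w)) →
    ∃ (E : Set ℂ) (Y h μ : Fin (2 * d + 1) → ℂ → ℂ) (i0 : Fin (2 * d + 1)) (b0 : ℝ), SFX g U E (2 * d + 1) Y h μ i0 b0 ∧
      ∀ z ∈ E, ∀ ε : ℝ, 0 < ε → ∀ᶠ n : ℕ in atTop, ∃ p ∈ S, chord ((Rf v)^[n] (Pool.Agent.H66.IL.em q z)) p < ε

theorem end_onel (hR : ROBg) {v : E d} (hd : 2 ≤ d) (hcop : IsCoprime (pol v.1) (pol v.2))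
    (hdeg : max (pol v.1).natDegree (pol v.2).natDegree = d) (hup : ¬ Up v) (hJ : JS (Rf v) = univ)
    (h0 : Rf v ((0 : ℂ) : OnePoint ℂ) = ((0 : ℂ) : OnePoint ℂ))
    (h1 : Rf v ((1 : ℂ) : OnePoint ℂ) = ((1 : ℂ) : OnePoint ℂ)) (hi : Rf v OnePoint.infty = OnePoint.infty)
    (htd : IsTotallyDisconnected (KK (Rf v))) (hfix : ∀ x ∈ KK (Rf v), Rf v x ≠ x) (hL : SFXl v)
    {S : Set (OnePoint ℂ)} (hSM : MnS (Rf v) (KK (Rf v)) S) {c0 : OnePoint ℂ} (hc0S : c0 ∈ S) (hc0 : IsCrit (Rf v) c0)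
    (hown : ∀ c, IsCrit (Rf v) c → c ∈ JS (Rf v) → c ∈ Om (Rf v) c)
    (hUP : ∃ κ : ℝ, 0 < κ ∧ UPd κ (KK (Rf v))) :
    ACs S := by
  by_contra hAC
  have hcont : Continuous (Rf v) := rat_continuous hcop
  have hKc : IsClosed (KK (Rf v)) := isClosed_closure
  have hKf : ∀ x ∈ KK (Rf v), Rf v x ∈ KK (Rf v) := kj_inv hcont
  -- the chart
  obtain ⟨q, hq0⟩ : ∃ q : ℂ, q = 0 := ⟨_, rfl⟩
  have hqP : (q : OnePoint ℂ) ∉ PCs v := by
    intro h2
    have h3 : ((0 : ℂ) : OnePoint ℂ) ∈ KK (Rf v) := by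
      rw [← hq0]
      exact h2
    exact hfix _ h3 h0
  have hq : (Rf v)^[1] (q : OnePoint ℂ) = (q : OnePoint ℂ) := by
    rw [hq0]
    exact h0
  obtain ⟨A, B, hRZ, he⟩ := rz_ex hd hcop hdeg hup hJ h0 h1 hi le_rfl hq hqP
  obtain ⟨φ, K, hKp, bil, hφ⟩ := em_hom hd q
  obtain ⟨η, ρ, hS⟩ := r1 hRZ one_pos
  obtain ⟨e, hee⟩ : ∃ e : ℂ → OnePoint ℂ, e = fun w : ℂ => φ.symm (w : OnePoint ℂ) := ⟨_, rfl⟩
  have hemb : IsOpenEmbedding e := hee ▸ φ.symm.isOpenEmbedding.comp OnePoint.isOpenEmbedding_coe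
  have hea : ∀ w : ℂ, e w = Pool.Agent.H66.IL.em q w := fun w => by rw [hee]; exact hφ w
  have hφe : ∀ w : ℂ, φ (e w) = (w : OnePoint ℂ) := fun w => by rw [hee]; exact φ.apply_symm_apply _
  have hec : Continuous e := hemb.continuous
  have hei : Function.Injective e := hemb.injective
  have hemq : ∀ w : ℂ, Pool.Agent.H66.IL.em q w ≠ (q : OnePoint ℂ) := by
    intro w h3
    unfold Pool.Agent.H66.IL.em at h3
    by_cases hw : w = 0
    · rw [if_pos hw] at h3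
      exact OnePoint.infty_ne_coe _ h3
    · rw [if_neg hw] at h3
      have h4 := OnePoint.coe_injective h3
      rw [add_eq_left, one_div, inv_eq_zero] at h4
      exact hw h4
  have hφq : φ (q : OnePoint ℂ) = OnePoint.infty := by
    by_contra h3
    obtain ⟨w, hw⟩ := OnePoint.ne_infty_iff_exists.1 h3
    refine hemq w ?_
    rw [← hea, hee]
    show φ.symm (w : OnePoint ℂ) = (q : OnePoint ℂ)
    rw [hw, φ.symm_apply_apply]
  have heq : ∀ w ∈ UP B, Rf v (e w) = e (gg A B w) := by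
    intro w hw
    rw [hea, hea]
    exact he w hw
  obtain ⟨P, hP⟩ : ∃ P, P = Pq v q := ⟨_, rfl⟩
  have hPK : ∀ z : ℂ, z ∈ P ↔ e z ∈ KK (Rf v) := by
    intro z
    rw [hea, hP]
    exact Iff.rfl
  have hfin : ∀ x ∈ KK (Rf v), ∃ z : ℂ, e z = x := by
    intro x hx
    have h2 : φ x ≠ OnePoint.infty := by
      intro h3
      rw [← hφq] at h3
      rw [φ.injective h3] at hx
      exact hqP hx
    obtain ⟨z, hz⟩ := OnePoint.ne_infty_iff_exists.1 h2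
    refine ⟨z, ?_⟩
    apply φ.injective
    rw [hφe, hz]
  rw [← hP] at hRZ hS
  -- the fields
  obtain ⟨E0, Y, hh, μ, i0, b0, hX0, hE0⟩ := hL S hSM ⟨c0, hc0S, hc0⟩ q 1 (gg A B) (UP B) hS.Uo hS.fd (fun w hw => he w hw)
  obtain ⟨J, E, hEE, hPS, hX, hJN⟩ := pg_exl hRZ hS hX0
  obtain ⟨g, hg⟩ : ∃ g, g = gg A B := ⟨_, rfl⟩
  obtain ⟨C, hC⟩ : ∃ C, C = CrS A B := ⟨_, rfl⟩
  obtain ⟨X, hXe⟩ : ∃ X, X = Y i0 := ⟨_, rfl⟩
  obtain ⟨h', hh'⟩ : ∃ h', h' = hh i0 := ⟨_, rfl⟩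
  obtain ⟨μ', hμ'⟩ : ∃ μ', μ' = μ i0 := ⟨_, rfl⟩
  rw [← hg, ← hC] at hPS hX
  rw [← hg] at hJN
  rw [← hXe, ← hh', ← hμ'] at hX
  rw [← hg] at heq
  have hJit : ∀ z ∈ J, ∀ n : ℕ, g^[n] z ∈ J := by
    intro z hz n
    induction n with
    | zero => exact hz
    | succ n ih =>
      rw [Function.iterate_succ_apply']
      exact hPS.Jf _ ih
  have hit : ∀ z ∈ J, ∀ n : ℕ, (Rf v)^[n] (e z) = e (g^[n] z) := by
    intro z hz n
    induction n with
    | zero => rfl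
    | succ n ih =>
      rw [Function.iterate_succ_apply', Function.iterate_succ_apply', ih, heq _ (hPS.JU (hJit z hz n))]
  -- the bounds
  obtain ⟨R, hRb⟩ := hPS.Jc.isBounded.exists_norm_le
  have hM0 : 0 < 1 + R ^ 2 := by positivity
  have hb_up : ∀ z w : ℂ, chord (e z) (e w) ≤ K * ‖z - w‖ := by
    intro z w
    have h1 := (bil (e z) (e w)).2
    rw [hφe, hφe] at h1
    exact h1.trans (mul_le_mul_of_nonneg_left (ch_up z w) hKp.le)
  have hb_lo : ∀ z ∈ J, ∀ w ∈ J, ‖z - w‖ ≤ (1 + R ^ 2) * K * chord (e z) (e w) := by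
    intro z hz w hw
    have h1 := (bil (e z) (e w)).1
    rw [hφe, hφe] at h1
    have h2 := ch_lo (hRb z hz) (hRb w hw)
    calc ‖z - w‖ ≤ (1 + R ^ 2) * chord (z : OnePoint ℂ) (w : OnePoint ℂ) := h2
      _ ≤ (1 + R ^ 2) * (K * chord (e z) (e w)) := mul_le_mul_of_nonneg_left h1 hM0.le
      _ = _ := by ring
  have hQ : 0 < (1 + R ^ 2) * K := by positivity
  -- the typical point
  obtain ⟨z, hzE⟩ : E.Nonempty := by
    by_contra hn
    rw [not_nonempty_iff_eq_empty] at hn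
    have h2 := hX.Ep
    rw [hn, measure_empty] at h2
    exact lt_irrefl _ h2
  have hzJ : z ∈ J := hX.EJ hzE
  have hSz := hE0 z (hEE hzE)
  obtain ⟨M, hM⟩ : ∃ M, M = e ⁻¹' S := ⟨_, rfl⟩
  have hMS : ∀ x : ℂ, x ∈ M ↔ e x ∈ S := fun x => by rw [hM]; rfl
  have hSf : ∀ s ∈ S, ∃ x ∈ M, e x = s := by
    intro s hs
    obtain ⟨w, hw⟩ := hfin s (hSM.sub hs)
    exact ⟨w, (hMS w).2 (hw ▸ hs), hw⟩
  have hMP : M ⊆ P := fun x hx => (hPK x).2 (hSM.sub ((hMS x).1 hx))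
  have hMJ : M ⊆ J := hMP.trans hPS.PJ
  have hMn : Mn g P M := by
    refine ⟨hM ▸ hSM.cl.preimage hec, ?_, hMP, ?_, ?_, ?_⟩
    · obtain ⟨s, hs⟩ := hSM.ne
      obtain ⟨x, hx, -⟩ := hSf s hs
      exact ⟨x, hx⟩
    · intro x hx
      rw [hMS, ← heq x (hPS.JU (hMJ hx))]
      exact hSM.inv _ ((hMS x).1 hx)
    · intro x hx y hy
      rw [Metric.mem_closure_iff]
      intro ε hε
      have h1 := mns_dense hcont hSM ((hMS x).1 hx) ((hMS y).1 hy)
      have h2 : {w | chord (e y) w < ε / ((1 + R ^ 2) * K)} ∈ 𝓝 (e y) := by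
        refine (Pool.Agent.H44.RC.ch_ball (e y) _).mem_nhds ?_
        show chord (e y) (e y) < _
        rw [chord_zero]
        positivity
      obtain ⟨_, h3, n, rfl⟩ := mem_closure_iff_nhds.1 h1 _ h2
      have h4 : chord (e y) ((Rf v)^[n] (e x)) < ε / ((1 + R ^ 2) * K) := h3
      rw [hit x (hMJ hx) n] at h4
      refine ⟨g^[n] x, ⟨n, rfl⟩, ?_⟩
      rw [dist_eq_norm]
      refine (hb_lo y (hMJ hy) _ (hJit _ (hMJ hx) n)).trans_lt ?_
      rw [mul_comm]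
      exact (lt_div_iff₀ hQ).1 h4
    · have h1 : P \ M = e ⁻¹' (KK (Rf v) \ S) := by
        ext x
        constructor
        · rintro ⟨h2, h3⟩
          exact ⟨(hPK x).1 h2, fun h4 => h3 ((hMS x).2 h4)⟩
        · rintro ⟨h2, h3⟩
          exact ⟨(hPK x).2 h2, fun h4 => h3 ((hMS x).1 h4)⟩
      rw [h1]
      exact hSM.off.preimage hec
  have hMC : (M ∩ C).Nonempty := by
    obtain ⟨x, hx, hxe⟩ := hSf c0 hc0S
    refine ⟨x, hx, ?_⟩
    have hxU : x ∈ UP B := hPS.JU (hMJ hx)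
    rw [hC]
    refine ⟨hxU, crit_coe ?_⟩
    -- `x` is a critical point of `rat A B`
    rintro ⟨W, hW, hWi⟩
    refine (hxe ▸ hc0 : IsCrit (Rf v) (e x)) ⟨φ ⁻¹' (W ∩ (((↑) : ℂ → OnePoint ℂ) '' UP B)), ?_, ?_⟩
    · refine φ.continuous.continuousAt.preimage_mem_nhds ?_
      rw [hφe]
      exact inter_mem hW (OnePoint.isOpenEmbedding_coe.isOpenMap.image_mem_nhds (hPS.Uo.mem_nhds hxU))
    · rintro a ⟨ha, w, hw, hwa⟩ b ⟨hb, w', hw', hwb⟩ hab
      have ha' : a = e w := φ.injective (by rw [hφe, hwa])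
      have hb' : b = e w' := φ.injective (by rw [hφe, hwb])
      rw [ha', hb', heq w hw, heq w' hw'] at hab
      have h3 := hei hab
      rw [← hwa] at ha
      rw [← hwb] at hb
      have h4 : rat A B (w : OnePoint ℂ) = rat A B (w' : OnePoint ℂ) := by
        rw [rat_coe_of_ne hw, rat_coe_of_ne hw']
        rw [hg] at h3
        exact congrArg _ h3
      have h5 := hWi ha hb h4
      rw [ha', hb', OnePoint.coe_injective h5]
  -- the critical points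
  have hCe : ∀ c ∈ C, IsCrit (Rf v) (e c) ∧ e c ∈ JS (Rf v) := by
    intro c' h1
    refine ⟨?_, hJ ▸ mem_univ _⟩
    rw [hC] at h1
    have hd1 : 1 ≤ max A.natDegree B.natDegree := by
      rw [hRZ.rt.deg]
      have := hRZ.rt.hd
      omega
    have h2 : IsCrit (rat A B) (c' : OnePoint ℂ) := crit_of_wr hRZ.rt.cop hd1 h1.2
    rintro ⟨W, hW, hWi⟩
    refine h2 ⟨φ.symm ⁻¹' W ∩ (((↑) : ℂ → OnePoint ℂ) '' UP B), ?_, ?_⟩
    · refine inter_mem (φ.symm.continuous.continuousAt.preimage_mem_nhds ?_)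
        (OnePoint.isOpenEmbedding_coe.isOpenMap.image_mem_nhds (hPS.Uo.mem_nhds h1.1))
      rw [hee] at hW
      exact hW
    · rintro _ ⟨ha, w, hw, rfl⟩ _ ⟨hb, w', hw', rfl⟩ hab
      rw [rat_coe_of_ne hw, rat_coe_of_ne hw'] at hab
      have h3 : g w = g w' := by
        rw [hg]
        exact OnePoint.coe_injective hab
      have h4 : e w ∈ W := by rw [hee]; exact ha
      have h5 : e w' ∈ W := by rw [hee]; exact hb
      rw [hei (hWi h4 h5 (by rw [heq w hw, heq w' hw', h3]))]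
  have hCP : C ⊆ P := by
    intro c' h1
    obtain ⟨h2, h3⟩ := hCe c' h1
    rw [hPK, ← hKc.closure_eq, mem_closure_iff_nhds]
    intro W hW
    obtain ⟨n, hn, hn2⟩ := frequently_atTop.1 (hown (e c') h2 h3 W hW) 1
    exact ⟨_, hn2, subset_closure ⟨e c', h2, h3, n, hn, rfl⟩⟩
  have hCJ : C ⊆ J := hCP.trans hPS.PJ
  have hrec : ∀ c ∈ C, ∀ ε : ℝ, 0 < ε → ∃ n : ℕ, 1 ≤ n ∧ ‖g^[n] c - c‖ < ε := by
    intro c' h1 ε hε
    obtain ⟨h2, h3⟩ := hCe c' h1
    have h4 : {w | chord (e c') w < ε / ((1 + R ^ 2) * K)} ∈ 𝓝 (e c') := by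
      refine (Pool.Agent.H44.RC.ch_ball (e c') _).mem_nhds ?_
      show chord (e c') (e c') < _
      rw [chord_zero]
      positivity
    obtain ⟨n, hn, hn2⟩ := frequently_atTop.1 (hown (e c') h2 h3 _ h4) 1
    have h5 : chord (e c') ((Rf v)^[n] (e c')) < ε / ((1 + R ^ 2) * K) := hn2
    rw [hit c' (hCJ h1) n] at h5
    refine ⟨n, hn, ?_⟩
    rw [norm_sub_rev]
    refine (hb_lo _ (hCJ h1) _ (hJit _ (hCJ h1) n)).trans_lt ?_
    rw [mul_comm]
    exact (lt_div_iff₀ hQ).1 h5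
  have hPM : ∀ x ∈ P, x ∉ M → g x ∉ M := by
    intro x hx hxM hgx
    rw [hMS, ← heq x (hPS.JU (hPS.PJ hx))] at hgx
    exact hSM.com (e x) ((hPK x).1 hx) (fun h4 => hxM ((hMS x).2 h4)) hgx
  have htdP : IsTotallyDisconnected P := by
    intro t ht htc x hx y hy
    have h1 := htd (e '' t) (by
      rintro _ ⟨w, hw, rfl⟩
      exact (hPK w).1 (ht hw)) (htc.image e hec.continuousOn) ⟨x, hx, rfl⟩ ⟨y, hy, rfl⟩
    exact hei h1
  have hfixP : ∀ x ∈ P, g x ≠ x := by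
    intro x hx hgx
    refine hfix (e x) ((hPK x).1 hx) ?_
    rw [heq x (hPS.JU (hPS.PJ hx)), hgx]
  -- the distance of the pieces
  obtain ⟨s0, hs0, hs1⟩ := Pool.Agent.H64.NC.ch_sep hSM.cl hSM.off (disjoint_left.2 fun x hx hx' => hx'.2 hx)
  obtain ⟨ε, hε, hcl⟩ := not_ac hAC
  obtain ⟨κ, hκ, r0, hr0, hup'⟩ := hUP
  obtain ⟨d2, hd2, hJN⟩ := hJN
  refine hR (pg_of hPS hCP hfixP) (fg_of (δ := 1) hPS.Jc hX) ⟨d2, hd2, fun z _ _ h => hJN z h⟩ hMn hMC htdP hCP hPM hrec ⟨(1 + R ^ 2) * K * (K / κ), min r0 s0 * κ / K, by positivity, ?_⟩ ?_ z hzE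
    ⟨hX.cr z hzE, ?_⟩
  · -- ring
    intro x hx r hr hrr
    have h1 : K * r / κ < min r0 s0 := by
      rw [div_lt_iff₀ hκ]
      rw [lt_div_iff₀ hKp] at hrr
      linarith
    obtain ⟨y, hy, h2, h3⟩ := hup' (e x) ((hPK x).1 (hMP hx)) (K * r / κ) (by positivity) (h1.trans_le (min_le_left _ _))
    have hyS : y ∈ S := by
      by_contra hyS
      have h4 := hs1 (e x) ((hMS x).1 hx) y ⟨hy, hyS⟩
      have h5 := h1.trans_le (min_le_right r0 s0)
      linarith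
    obtain ⟨w, hwM, rfl⟩ := hSf y hyS
    refine ⟨w, hwM, ?_, ?_⟩
    · have h4 : κ * (K * r / κ) = K * r := by field_simp
      rw [h4] at h2
      have h5 := h2.trans (hb_up x w)
      rw [norm_sub_rev]
      exact le_of_mul_le_mul_left h5 hKp
    · have h4 := hb_lo x (hMJ hx) w (hMJ hwM)
      rw [norm_sub_rev]
      calc ‖x - w‖ ≤ (1 + R ^ 2) * K * chord (e x) (e w) := h4
        _ ≤ (1 + R ^ 2) * K * (K * r / κ) := mul_le_mul_of_nonneg_left h3.le (by positivity)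
        _ = _ := by ring
  · -- clusters
    refine ⟨ε / (K * ((1 + R ^ 2) * K)), by positivity, fun r₁ hr₁ => ?_⟩
    obtain ⟨r, hr, hrr, A', hAn, hAK, hAd, hAs⟩ := hcl (r₁ / ((1 + R ^ 2) * K)) (by positivity)
    refine ⟨(1 + R ^ 2) * K * r, by positivity, ?_, e ⁻¹' A', fun w hw => (hMS w).2 (hAK hw), ?_, ?_, ?_⟩
    · rw [lt_div_iff₀ (by positivity)] at hrr
      linarith
    · obtain ⟨a, ha⟩ := hAn
      obtain ⟨w, -, hw⟩ := hSf a (hAK ha)
      exact ⟨w, by show e w ∈ A'; rw [hw]; exact ha⟩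
    · intro x hx y hy
      have h1 := hb_lo x (hMJ ((hMS x).2 (hAK hx))) y (hMJ ((hMS y).2 (hAK hy)))
      exact h1.trans (mul_le_mul_of_nonneg_left (hAd _ hx _ hy) (by positivity))
    · intro x hx y hy hyA
      have h1 := hAs _ hx _ ((hMS y).1 hy) hyA
      have h2 := h1.trans (hb_up x y)
      have h3 : ε / (K * ((1 + R ^ 2) * K)) * ((1 + R ^ 2) * K * r) = ε * r / K := by
        field_simp
      rw [h3, div_le_iff₀ hKp]
      linarith
  · -- the limit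
    intro ε' hε'
    obtain ⟨N, hN⟩ := eventually_atTop.1 (hSz (ε' / ((1 + R ^ 2) * K)) (by positivity))
    refine ⟨N, fun n hn => ?_⟩
    obtain ⟨p, hp, h1⟩ := hN n hn
    rw [← hea] at h1
    obtain ⟨y, hy, rfl⟩ := hSf p hp
    refine ⟨y, hy, ?_⟩
    rw [hit z hzJ n] at h1
    refine (hb_lo _ (hJit _ hzJ n) y (hMJ hy)).trans_lt ?_
    rw [mul_comm]
    exact (lt_div_iff₀ hQ).1 h1

end Pool.Agent.H56.SPH
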