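import Pool.Agent.H56.SPH.Pg
import Pool.Agent.H66.SP.Defs

/-!
# Julia set = sphere: the instances of `PG`, `FG` (H66/SP/Defs)

`pg_of`: `PGm` with recurrent critical points (`Cr ⊆ P`) and without fixed points in `P` gives `PG`. `fg_of`: `FGm` gives `FG`.
-/

set_option autoImplicit false

open Filter Topology Metric Set MeasureTheory

namespace Pool.Agent.H56.SPH

open Pool.Agent.H56.UD (dm)
open Pool.Agent.H78.UX (oU)
open Pool.Agent.H56.WP (Wd)
open Pool.Agent.H66.SP (PG FG)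

variable {f : ℂ → ℂ} {U J P Cr E : Set ℂ} {δ : ℝ} {η : ℂ → ℂ → ℂ} {ρ : ℝ} {X hh μ : ℂ → ℂ} {b0 : ℝ}

/-- the images of a compact forward invariant set without fixed points are not small -/
theorem jd_of (hf : ContinuousOn f P) (hPc : IsCompact P) (hPn : P.Nonempty) (hPf : ∀ z ∈ P, f z ∈ P)
    (hfix : ∀ z ∈ P, f z ≠ z) : ∃ D : ℝ, 0 < D ∧ ∀ k : ℕ, ∃ a ∈ P, ∃ b ∈ P, D ≤ ‖f^[k] a - f^[k] b‖ := by
  have hit : ∀ k : ℕ, ∀ z ∈ P, f^[k] z ∈ P := by
    intro k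
    induction k with
    | zero => exact fun z hz => hz
    | succ k ih =>
      intro z hz
      rw [Function.iterate_succ_apply']
      exact hPf _ (ih z hz)
  have hcont : ∀ k : ℕ, ContinuousOn f^[k] P := by
    intro k
    induction k with
    | zero => exact continuousOn_id
    | succ k ih =>
      rw [Function.iterate_succ']
      exact hf.comp ih fun z hz => hit k z hz
  have hc : ∀ k : ℕ, IsCompact (f^[k] '' P) := fun k => hPc.image_of_continuousOn (hcont k)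
  obtain ⟨x, hx⟩ : (⋂ k : ℕ, f^[k] '' P).Nonempty := by
    refine IsCompact.nonempty_iInter_of_sequence_nonempty_isCompact_isClosed _ ?_ (fun k => hPn.image _) (hc 0)
      fun k => (hc k).isClosed
    intro k
    rintro _ ⟨z, hz, rfl⟩
    exact ⟨f z, hPf z hz, (Function.iterate_succ_apply f k z).symm⟩
  have hxk := mem_iInter.1 hx
  have hxP : x ∈ P := by
    obtain ⟨z, hz, he⟩ := hxk 0
    exact he ▸ hz
  refine ⟨‖x - f x‖, norm_pos_iff.2 (sub_ne_zero.2 fun h => hfix x hxP h.symm), fun k => ?_⟩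
  obtain ⟨a, ha, hak⟩ := hxk k
  refine ⟨a, ha, f a, hPf a ha, le_of_eq ?_⟩
  rw [hak, ← Function.iterate_succ_apply f k a, Function.iterate_succ_apply', hak]

theorem pg_of (h : PGm f U J P Cr δ η ρ) (hCP : Cr ⊆ P) (hfix : ∀ z ∈ P, f z ≠ z) : PG f U J P Cr δ η ρ where
  hδ := h.hδ
  Uo := h.Uo
  fd := h.fd
  Jc := h.Jc
  Jt := h.Jt
  JU := h.JU
  Jf := h.Jf
  Pc := h.Pc
  Pn := h.Pn
  PJ := h.PJ
  Pf := h.Pf
  lift := by
    intro k S H q z hS hSo hH hP hq hz he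
    obtain ⟨G, h1, h2, h3⟩ := h.lift k S H q z hS hSo hH (fun u hu => (hP u hu).2) hq hz.1 he
    exact ⟨G, h1, h2, fun u hu => ⟨⟨(h3 u hu).1, by rw [(h3 u hu).2]; exact (hP u hu).1⟩, (h3 u hu).2⟩⟩
  leo := by
    intro O hO hn
    obtain ⟨R, hR⟩ := h.Jc.isBounded.subset_ball 0
    obtain ⟨N, hN⟩ := h.leo O hO (hn.mono inter_subset_left) R
    refine ⟨N, fun n hn y hy => ?_⟩
    obtain ⟨x, hx, he⟩ := hN n hn (hR hy)
    exact ⟨x, ⟨hx.1, hx.2, he ▸ self_subset_thickening h.hδ J hy⟩, he⟩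
  leb := by
    rintro O hO ⟨q, hq, -⟩
    obtain ⟨R, hR⟩ := h.Jc.isBounded.subset_ball 0
    obtain ⟨N, hN⟩ := h.leo O hO ⟨q, hq⟩ R
    refine ⟨N, fun n hn y hy => ?_⟩
    obtain ⟨x, hx, he⟩ := hN n hn (hR hy)
    exact ⟨x, ⟨hx.1, hx.2, he ▸ self_subset_thickening h.hδ J hy⟩, he⟩
  Jd := by
    obtain ⟨D, hD, hk⟩ := jd_of (h.fd.continuousOn.mono (h.PJ.trans h.JU)) (h.Jc.of_isClosed_subset h.Pc h.PJ) h.Pn h.Pf hfix
    refine ⟨D, hD, fun k => ?_⟩
    obtain ⟨a, ha, b, hb, h1⟩ := hk k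
    exact ⟨a, h.PJ ha, b, h.PJ hb, h1⟩
  Cf := h.Cf
  CJ := hCP.trans h.PJ
  CP := h.CP
  hρ := h.hρ
  nf := h.nf
  loc := h.loc
  stp := by
    intro θ ρ0 _ _ _ h1
    refine ⟨1, one_pos, fun K y ε g u0 z' uJ _ _ hW hP hz' hu0 hfz _ _ => ?_⟩
    obtain ⟨G, hGd, hG0, hG1⟩ := h.lift 1 (ball 0 1) g u0 z' (convex_ball _ _) isOpen_ball hW.diff hP
      (mem_ball_zero_iff.2 (hu0.trans_lt h1)) (fun j hj => by
        obtain rfl : j = 0 := by omega
        exact hz') hfz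
    have hU : ∀ v ∈ ball (0 : ℂ) 1, G v ∈ U ∧ f (G v) = g v := fun v hv => ⟨(hG1 v hv).1 0 one_pos, (hG1 v hv).2⟩
    refine ⟨G, ⟨hGd, ?_, ?_, ?_⟩, hU, hG0⟩
    · intro u hu u' hu' he
      refine hW.inj hu hu' ?_
      rw [← (hU u hu).2, ← (hU u' hu').2, he]
    · intro v hv
      have h2 := hW.val v hv
      have h3 : f^[K + 1] (G v) = f^[K] (g v) := by rw [Function.iterate_succ_apply, (hU v hv).2]
      refine ⟨⟨fun j hj => ?_, ?_⟩, ?_⟩
      · rcases Nat.eq_zero_or_pos j with h4 | h4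
        · rw [h4]
          exact (hU v hv).1
        · obtain ⟨i, rfl⟩ : ∃ i, j = i + 1 := ⟨j - 1, by omega⟩
          rw [Function.iterate_succ_apply, (hU v hv).2]
          exact h2.1.1 i (by omega)
      · rw [h3]
        exact h2.1.2
      · rw [h3]
        exact h2.2
    · intro v hv hv1
      rw [Function.iterate_succ_apply, (hU v (mem_ball_zero_iff.2 hv1)).2]
      exact hW.col v hv hv1

theorem fg_of (hJ : IsCompact J) (h : FGm f U J E P Cr X hh μ b0) : FG f U J E δ X hh μ b0 where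
  hb := h.hb
  Xc := h.Xc
  hd := h.hd
  eq := h.eq
  Ec := h.Ec
  EJ := h.EJ
  Ep := h.Ep
  lb := h.lb
  T := h.T
  nc := by
    intro δ' M hδ'
    obtain ⟨R, hR⟩ := hJ.isBounded.exists_norm_le
    obtain ⟨ε, hε, h1⟩ := h.nc δ' M R hδ'
    refine ⟨ε, hε, fun z hz k y σ G hy _ hσ hG h2 h3 => ?_⟩
    exact h1 z hz k y σ G (hR y hy) hσ hG (fun u hu => ⟨(h2 u hu).1.1, (h2 u hu).2⟩) h3

end Pool.Agent.H56.SPH
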