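import Pool.Agent.H56.SPH.Eg
import Pool.Agent.H56.UD.Defs

/-!
# Julia set = sphere, END: the planar setting with a compact forward invariant set

`PGm`: the fields of `PS` (H56/UD/Defs) without `Jb`, `bd`, `Ji`, with the exactness in the strong form of `SS`. `FGm`: the fields of
`FX` without `off`, with `nc` (no cones). `pg_ex`: they exist for the map in the chart at a fixed point outside the post-critical set.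
-/

set_option autoImplicit false

open Filter Topology Polynomial Metric Set MeasureTheory

namespace Pool.Agent.H56.SPH

open Pool.Agent.H56.UD (dm)
open Pool.Agent.H61.TT (gg dg ww RatD)
open Pool.Agent.H78.UX (oU SS)
open Pool.Agent.H66.IL (SFX)
open Pool.Agent.H66.UX (UP CrS RZ)

/-- the planar setting, `J` compact and forward invariant -/
structure PGm (f : ℂ → ℂ) (U J P Cr : Set ℂ) (δ : ℝ) (η : ℂ → ℂ → ℂ) (ρ : ℝ) : Prop where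
  hδ : 0 < δ
  Uo : IsOpen U
  fd : DifferentiableOn ℂ f U
  Jc : IsCompact J
  Jt : J.Nontrivial
  JU : J ⊆ U
  Jf : ∀ z ∈ J, f z ∈ J
  Pc : IsClosed P
  Pn : P.Nonempty
  PJ : P ⊆ J
  Pf : ∀ z ∈ P, f z ∈ P
  lift : ∀ (k : ℕ) (S : Set ℂ) (H : ℂ → ℂ) (q z : ℂ), Convex ℝ S → IsOpen S → DifferentiableOn ℂ H S →
    (∀ u ∈ S, H u ∉ P) → q ∈ S → z ∈ oU f U k → f^[k] z = H q →
    ∃ G : ℂ → ℂ, DifferentiableOn ℂ G S ∧ G q = z ∧ ∀ u ∈ S, G u ∈ oU f U k ∧ f^[k] (G u) = H u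
  leo : ∀ O : Set ℂ, IsOpen O → O.Nonempty → ∀ R : ℝ, ∃ N : ℕ, ∀ n ≥ N, ball 0 R ⊆ f^[n] '' (O ∩ oU f U n)
  Cf : Cr.Finite
  CU : Cr ⊆ U
  CP : ∀ c ∈ Cr, f c ∈ P
  hρ : 0 < ρ
  nf : ∀ c ∈ Cr, DifferentiableOn ℂ (η c) (ball 0 ρ) ∧ InjOn (η c) (ball 0 ρ) ∧ η c 0 = c ∧
    ∀ v ∈ ball (0 : ℂ) ρ, η c v ∈ U ∧ f (η c v) = f c + v ^ 2
  loc : ∃ δ1 : ℝ, 0 < δ1 ∧ δ1 ≤ δ ∧ ∀ y ∈ J, ∀ z ∈ U, f z ∈ ball y δ1 →
    (∃ g : ℂ → ℂ, DifferentiableOn ℂ g (ball y δ1) ∧ g (f z) = z ∧ ∀ u ∈ ball y δ1, g u ∈ U ∧ f (g u) = u) ∨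
    (∃ c ∈ Cr, ball y δ1 ⊆ ball (f c) (ρ ^ 2 / 4) ∧ z ∈ η c '' ball 0 ρ)

/-- the field -/
structure FGm (f : ℂ → ℂ) (U J E P Cr : Set ℂ) (X h μ : ℂ → ℂ) (b0 : ℝ) : Prop where
  hb : 0 < b0
  Xc : Continuous X
  hd : DifferentiableOn ℂ h U
  eq : ∀ z ∈ U, X (f z) = deriv f z * X z + h z
  Ec : IsCompact E
  EJ : E ⊆ J
  Ep : 0 < volume E
  lb : ∀ z ∈ E, b0 ≤ ‖μ z‖ ∧ ‖μ z‖ ≤ 1
  T : ∀ ε : ℝ, 0 < ε → ∃ ρ : ℝ, 0 < ρ ∧ ∀ z ∈ E, ∀ r : ℝ, 0 < r → r < ρ →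
    ∃ H : ℂ → ℂ, DifferentiableOn ℂ H (ball z r) ∧
      ∀ w ∈ ball z r, ‖X w - μ z * (starRingEnd ℂ) (w - z) - H w‖ ≤ ε * r
  nc : ∀ δ' M R0 : ℝ, 0 < δ' → ∃ ε : ℝ, 0 < ε ∧ ∀ z ∈ E, ∀ (k : ℕ) (y : ℂ) (σ : ℝ) (G : ℂ → ℂ), ‖y‖ ≤ R0 → 0 < σ →
    DifferentiableOn ℂ G (ball y δ') →
    (∀ u ∈ ball y δ', G u ∈ oU f U k ∧ f^[k] (G u) = u ∧ ‖G u - z‖ ≤ M * σ) → σ ≤ M * ‖deriv G y‖ → ε ≤ σ
  cr : ∀ z ∈ E, ∀ k : ℕ, f^[k] z ∉ Cr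
  tP : ∀ ε : ℝ, 0 < ε → ∃ N : ℕ, ∀ k ≥ N, ∀ z ∈ E, ∃ p ∈ P, ‖f^[k] z - p‖ < ε

/-- `RZ` for a larger compact invariant set -/
theorem rz_J {a b : Polynomial ℂ} {D : ℕ} {P J : Set ℂ} (h : RZ a b D P) (hJ : IsCompact J) (hPJ : P ⊆ J) (hJU : J ⊆ UP b)
    (hJf : ∀ z ∈ J, gg a b z ∈ J) : RZ a b D J :=
  { rt := h.rt
    fi := h.fi
    Pc := hJ
    Pn := h.Pn.mono hPJ
    Pb := fun z hz => hJU hz
    Pf := hJf
    ci := h.ci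
    cv := fun c h1 h2 => ⟨hPJ (h.cv c h1 h2).1, (h.cv c h1 h2).2⟩
    leo := h.leo
    con := h.con }

theorem pg_exl {a b : Polynomial ℂ} {D : ℕ} {P E : Set ℂ} (h : RZ a b D P) {δ ρ : ℝ} {η : ℂ → ℂ → ℂ}
    (hS : SS (gg a b) (UP b) P (CrS a b) δ η ρ) {n : ℕ} {X hh μ : Fin n → ℂ → ℂ} {i0 : Fin n} {b0 : ℝ}
    (hX : SFX (gg a b) (UP b) E n X hh μ i0 b0) :
    ∃ J E' : Set ℂ, E' ⊆ E ∧ PGm (gg a b) (UP b) J P (CrS a b) δ η ρ ∧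
      FGm (gg a b) (UP b) J E' P (CrS a b) (X i0) (hh i0) (μ i0) b0 ∧
      ∃ d2 : ℝ, 0 < d2 ∧ ∀ z : ℂ, (∀ i : ℕ, infDist ((gg a b)^[i] z) P < d2) → z ∈ J := by
  obtain ⟨E', hE', hEc, hEp, hEU, hEC, hEt⟩ := eg_s h.rt hS hX
  obtain ⟨J, d2, hd2, hJc, hPJ, hEJ, hJU, hJf, hJN⟩ := js_s hS.Uo hS.fd.continuousOn hS.Pc hS.Pn hS.PU hS.Pf hEc hEU hEt
  have hJR := rz_J h hJc hPJ hJU hJf
  have hEnt : E'.Nontrivial := by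
    by_contra hn
    rw [Set.not_nontrivial_iff] at hn
    exact absurd (hn.measure_zero volume) hEp.ne'
  refine ⟨J, E', hE', ?_, ?_, d2, hd2, hJN⟩
  · exact
      { hδ := hS.hδ
        Uo := hS.Uo
        fd := hS.fd
        Jc := hJc
        Jt := hEnt.mono hEJ
        JU := hJU
        Jf := hJf
        Pc := hS.Pc.isClosed
        Pn := hS.Pn
        PJ := hPJ
        Pf := hS.Pf
        lift := fun k S H q z hSc hSo hH hP hq hz he =>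
          Pool.Agent.H78.UX.lift_star hS k S H q q z hq (hSc.starConvex hq) hSo hH hP hq hz he
        leo := hS.leo
        Cf := hS.Cf
        CU := hS.CU
        CP := hS.CP
        hρ := hS.hρ
        nf := hS.nf
        loc := Pool.Agent.H66.UX.loc_rz hJR hS.hρ hS.hδ hS.nf }
  · exact
      { hb := hX.hb
        Xc := hX.Xc i0
        hd := hX.hd i0
        eq := hX.eq i0
        Ec := hEc
        EJ := hEJ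
        Ep := hEp
        lb := fun z hz => ⟨hX.lb z (hE' hz), hX.up i0 z (hE' hz)⟩
        T := fun ε hε => by
          obtain ⟨ρ', h1, h2⟩ := hX.T ε hε
          exact ⟨ρ', h1, fun z hz r hr hr' => h2 i0 z (hE' hz) r hr hr'⟩
        nc := fun δ' M R0 hδ' => by
          obtain ⟨ε, h1, h2⟩ := Pool.Agent.H66.UX.nc_s hS hX (δ' := δ') (M := M) (R0 := R0) hδ'
          exact ⟨ε, h1, fun z hz => h2 z (hE' hz)⟩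
        cr := hEC
        tP := hEt }

theorem pg_ex {a b : Polynomial ℂ} {D : ℕ} {P E : Set ℂ} (h : RZ a b D P) {δ ρ : ℝ} {η : ℂ → ℂ → ℂ}
    (hS : SS (gg a b) (UP b) P (CrS a b) δ η ρ) {n : ℕ} {X hh μ : Fin n → ℂ → ℂ} {i0 : Fin n} {b0 : ℝ}
    (hX : SFX (gg a b) (UP b) E n X hh μ i0 b0) :
    ∃ J E' : Set ℂ, PGm (gg a b) (UP b) J P (CrS a b) δ η ρ ∧
      FGm (gg a b) (UP b) J E' P (CrS a b) (X i0) (hh i0) (μ i0) b0 ∧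
      ∃ d2 : ℝ, 0 < d2 ∧ ∀ z : ℂ, (∀ i : ℕ, infDist ((gg a b)^[i] z) P < d2) → z ∈ J := by
  obtain ⟨J, E', -, h1, h2, h3⟩ := pg_exl h hS hX
  exact ⟨J, E', h1, h2, h3⟩

end Pool.Agent.H56.SPH
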