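import Pool.Agent.H66.UX.NCS
import Pool.Agent.H66.UX.FIN
import Pool.Agent.H78.UX.DB


/-!
# Julia set = sphere, END: the orbits of typical points tend to the post-critical set

`tend_s`: the orbit of a point `z ∈ E` which never meets a pole tends to `P` (no cones, exactness).
-/

set_option autoImplicit false

open Filter Topology Metric Set MeasureTheory

namespace Pool.Agent.H56.SPH

open Pool.Agent.H78.UX (oU SS)
open Pool.Agent.H66.IL (SFX)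

variable {f : ℂ → ℂ} {U P Cr E : Set ℂ} {δ : ℝ} {η : ℂ → ℂ → ℂ} {ρ : ℝ} {n : ℕ} {X hh μ : Fin n → ℂ → ℂ} {i0 : Fin n} {b0 : ℝ}

theorem tend_s (h : SS f U P Cr δ η ρ) (hX : SFX f U E n X hh μ i0 b0) {z : ℂ} (hz : z ∈ E) (hzU : ∀ k : ℕ, f^[k] z ∈ U)
    {ε : ℝ} (hε : 0 < ε) : ∀ᶠ k : ℕ in atTop, ∃ p ∈ P, ‖f^[k] z - p‖ < ε := by
  by_contra hcon
  have hcon2 : ∃ᶠ k : ℕ in atTop, ¬ ∃ p ∈ P, ‖f^[k] z - p‖ < ε := not_eventually.1 hcon
  obtain ⟨A, B, hA, hB⟩ := h.inf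
  set δ' : ℝ := min ε δ with hδ'
  have hδ'0 : 0 < δ' := lt_min hε h.hδ
  have hδ'ε : δ' ≤ ε := min_le_left _ _
  have hδ'δ : δ' ≤ δ := min_le_right _ _
  have hfr : ∀ N : ℕ, ∃ k ≥ N, ‖f^[k] z‖ ≤ |B| ∧ ∀ p ∈ P, δ' ≤ ‖f^[k] z - p‖ := by
    intro N
    obtain ⟨k, hk, hk2⟩ := frequently_atTop.1 hcon2 N
    push Not at hk2
    by_cases hkB : B ≤ ‖f^[k] z‖
    · obtain ⟨m, hm1, hm2⟩ := hB (f^[k] z) hkB (fun j => by
        rw [← Function.iterate_add_apply]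
        exact hzU _)
      rw [← Function.iterate_add_apply] at hm1 hm2
      refine ⟨m + k, by omega, hm2.trans (le_abs_self B), fun p hp => ?_⟩
      by_contra hlt
      rw [not_le] at hlt
      have h1 : f^[m + k] z ∈ thickening δ P := mem_thickening_iff.2 ⟨p, hp, by
        rw [dist_eq_norm]
        exact hlt.trans_le hδ'δ⟩
      have h2 := mem_ball_zero_iff.1 (hA h1)
      exact absurd hm1 (not_le.2 h2)
    · exact ⟨k, hk, (le_of_lt (not_le.1 hkB)).trans (le_abs_self B), fun p hp => hδ'ε.trans (hk2 p hp)⟩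
  have hKK := Pool.Agent.H80.AJ.one_le_KK
  have hKp := Pool.Agent.H80.AJ.KK_pos
  obtain ⟨ε1, hε1, hnc⟩ := Pool.Agent.H66.UX.nc_s h hX (δ' := δ' / 2) (M := 1 + Pool.Agent.H80.AJ.KK * δ') (R0 := |B|)
    (by linarith)
  obtain ⟨N, hN⟩ := h.leo (ball z (δ' * ε1 / 32)) isOpen_ball ⟨z, mem_ball_self (by positivity)⟩ (δ' + 1)
  obtain ⟨k, hk, hkB, hkP⟩ := hfr N
  have hbP : ∀ u ∈ ball (f^[k] z) δ', u ∉ P := fun u hu hP => by
    have h1 := hkP u hP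
    have h2 := mem_ball.1 hu
    rw [dist_comm, dist_eq_norm] at h2
    linarith
  obtain ⟨G, hGd, hG0, hG1⟩ := Pool.Agent.H78.UX.br_any h hbP (k := k) (z := z) (fun j _ => hzU j) (mem_ball_self hδ'0)
  obtain ⟨y, hy⟩ : ∃ y, y = f^[k] z := ⟨_, rfl⟩
  rw [← hy] at hkB hGd hG0 hG1
  have hGi : InjOn G (ball y δ') := by
    intro u hu u' hu' he
    rw [← (hG1 u hu).2, ← (hG1 u' hu').2, he]
  have hsub : ball y (δ' / 2) ⊆ ball y δ' := ball_subset_ball (by linarith)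
  have hder : deriv G y ≠ 0 := by
    have hym : y ∈ ball y δ' := mem_ball_self hδ'0
    have hGy : DifferentiableAt ℂ G y := hGd.differentiableAt (isOpen_ball.mem_nhds hym)
    obtain ⟨ho, hfd, -⟩ := Pool.Agent.H66.UX.it_eq h.Uo h.fd (hX.hd i0) (hX.eq i0) k
    have hfy : DifferentiableAt ℂ f^[k] (G y) := hfd.differentiableAt (ho.mem_nhds (hG1 y hym).1)
    have h2 : HasDerivAt (f^[k] ∘ G) (deriv f^[k] (G y) * deriv G y) y := hfy.hasDerivAt.comp y hGy.hasDerivAt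
    have h3 : HasDerivAt (f^[k] ∘ G) 1 y := (hasDerivAt_id y).congr_of_eventuallyEq (by
      filter_upwards [isOpen_ball.mem_nhds hym] with u hu
      exact (hG1 u hu).2)
    have h4 := h2.unique h3
    intro h5
    rw [h5, mul_zero] at h4
    exact zero_ne_one h4
  have hσ : 0 < ‖deriv G y‖ := norm_pos_iff.2 hder
  have hy0 : y ∈ closedBall y (δ' / 2) := mem_closedBall_self (by linarith)
  have h1 := hnc z hz k y ‖deriv G y‖ G hkB hσ (hGd.mono hsub)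
    (fun u hu => ⟨(hG1 u (hsub hu)).1, (hG1 u (hsub hu)).2, by
      have h4 := Pool.Agent.H80.AJ.distort_lip hδ'0 hGd hGi (w := u) (w' := y) (v := y)
        (ball_subset_closedBall hu) hy0 hy0
      rw [hG0] at h4
      have h5 : ‖u - y‖ ≤ δ' := by
        have := mem_ball_iff_norm.1 hu
        linarith
      calc ‖G u - z‖ ≤ Pool.Agent.H80.AJ.KK * ‖deriv G y‖ * ‖u - y‖ := h4
        _ ≤ Pool.Agent.H80.AJ.KK * ‖deriv G y‖ * δ' := by gcongr
        _ ≤ (1 + Pool.Agent.H80.AJ.KK * δ') * ‖deriv G y‖ := by nlinarith⟩) (by nlinarith [mul_pos hKp hδ'0])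
  have h2 := Pool.Agent.H80.AJ.univ_cover (by linarith : 0 < δ' / 2) (hGd.mono hsub) (hGi.mono hsub)
  rw [hG0] at h2
  have h3 : ball z (δ' * ε1 / 32) ⊆ G '' ball y (δ' / 2) := by
    refine Subset.trans (ball_subset_ball ?_) h2
    have : δ' * ε1 ≤ δ' * ‖deriv G y‖ := by gcongr
    linarith
  have h4 : ∀ w ∈ ball (0 : ℂ) (δ' + 1), w ∈ ball y (δ' / 2) := by
    intro w hw
    obtain ⟨x, hx, rfl⟩ := hN k hk hw
    obtain ⟨u, hu, hux⟩ := h3 hx.1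
    rw [← hux, (hG1 u (hsub hu)).2]
    exact hu
  have h5 := mem_ball_iff_norm.1 (h4 ((δ' : ℝ) : ℂ) (by
    rw [mem_ball_zero_iff, Complex.norm_real, Real.norm_eq_abs, abs_of_pos hδ'0]
    linarith))
  have h6 := mem_ball_iff_norm.1 (h4 0 (mem_ball_self (by linarith)))
  have h7 : ‖((δ' : ℝ) : ℂ) - 0‖ ≤ ‖((δ' : ℝ) : ℂ) - y‖ + ‖(0 : ℂ) - y‖ := by
    calc ‖((δ' : ℝ) : ℂ) - 0‖ = ‖(((δ' : ℝ) : ℂ) - y) - (0 - y)‖ := by congr 1; ring
      _ ≤ _ := norm_sub_le _ _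
  rw [sub_zero, Complex.norm_real, Real.norm_eq_abs, abs_of_pos hδ'0] at h7
  linarith

end Pool.Agent.H56.SPH
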